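import Pool.Agent.H772R3.RightAlt

/-!
# The basic extension of a right alternative algebra over a commutative ring

Every right alternative algebra `A` over `k` embeds in a right alternative algebra `D k A` such
that no nonzero element of the image of `A` lies in the right nucleus, in the left nucleus, in the
alternative centre or in the commutative centre of `D k A`. If `A` satisfies the right Moufang
identity, then so does `D k A`.
-/

set_option autoImplicit false
set_option linter.unusedSectionVars false

namespace Pool.Agent.Y136.RA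

open Pool.Agent.H772R3.RightAlt

universe u v w

/-- The right Moufang identity `((x y) z) y = x ((y z) y)`. -/
def IsRightMoufang (A : Type w) [NonUnitalNonAssocRing A] : Prop :=
  ∀ x y z : A, ((x * y) * z) * y = x * ((y * z) * y)

/-- The commutative centre: the elements which commute with all elements. -/
def commCenter (A : Type w) [NonUnitalNonAssocRing A] : Set A :=
  {a | ∀ x : A, a * x = x * a}

/-- `A` is right alternative, and if `s` is true it also satisfies the right Moufang identity. -/
def InVar (s : Prop) (A : Type w) [NonUnitalNonAssocRing A] : Prop :=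
  IsRightAlternative A ∧ (s → IsRightMoufang A)

variable (k : Type v) [CommRing k] (A : Type w) [NonUnitalNonAssocRing A] [Module k A]
  [IsScalarTower k A A] [SMulCommClass k A A]

/-- `A` with a unit adjoined, as a module. -/
abbrev M : Type (max v w) := k × A

variable {A}

/-- Right multiplication by `a` on `k × A`. -/
def T (a : A) : M k A →ₗ[k] M k A where
  toFun m := (0, m.1 • a + m.2 * a)
  map_add' m m' := by
    ext
    · simp
    · simp [add_smul, add_mul]; abel
  map_smul' c m := by
    ext
    · simp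
    · simp [smul_smul, smul_mul_assoc]

lemma T_apply (a : A) (m : M k A) : T k a m = (0, m.1 • a + m.2 * a) := rfl

lemma T_add (a b : A) : T k (a + b) = T k a + T k b := by
  refine LinearMap.ext fun m => ?_
  ext
  · simp [T_apply]
  · simp [T_apply, mul_add]
    abel

lemma T_smul (c : k) (a : A) : T k (c • a) = c • T k a := by
  refine LinearMap.ext fun m => ?_
  ext
  · simp [T_apply]
  · simp [T_apply, mul_smul_comm, smul_comm m.1 c]

lemma T_zero : T k (0 : A) = 0 := by
  refine LinearMap.ext fun m => ?_
  ext <;> simp [T_apply]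

lemma T_T (h : IsRightAlternative A) (a : A) (m : M k A) : T k a (T k a m) = T k (a * a) m := by
  simp only [T_apply]
  ext
  · rfl
  · simp [add_mul, h m.2 a, smul_mul_assoc]

lemma T_T_T (h : IsRightMoufang A) (a b : A) (m : M k A) :
    T k a (T k b (T k a m)) = T k ((a * b) * a) m := by
  simp only [T_apply]
  ext
  · rfl
  · simp [add_mul, h m.2 a b, smul_mul_assoc]

variable (A)

/-- The big algebra: `A`, two copies of the linear maps `M → M`, the scalars and three copies of
`M = k × A`. -/
@[ext] structure D : Type (max v w) where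
  /-- component in `A` -/
  a : A
  /-- component in the linear maps -/
  v : M k A →ₗ[k] M k A
  /-- scalar component -/
  c : k
  /-- second component in the linear maps -/
  w : M k A →ₗ[k] M k A
  /-- first module component -/
  m1 : M k A
  /-- second module component -/
  m0 : M k A
  /-- third module component -/
  m2 : M k A

variable {A}

namespace D

/-- coordinates -/
def toProd (x : D k A) :
    A × (M k A →ₗ[k] M k A) × k × (M k A →ₗ[k] M k A) × M k A × M k A × M k A :=
  (x.a, x.v, x.c, x.w, x.m1, x.m0, x.m2)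

lemma toProd_injective : Function.Injective (toProd (k := k) (A := A)) := by
  intro x y h
  simp only [toProd, Prod.mk.injEq] at h
  obtain ⟨h1, h2, h3, h4, h5, h6, h7⟩ := h
  ext1 <;> assumption

instance : Zero (D k A) := ⟨⟨0, 0, 0, 0, 0, 0, 0⟩⟩
instance : Add (D k A) := ⟨fun x y => ⟨x.a + y.a, x.v + y.v, x.c + y.c, x.w + y.w, x.m1 + y.m1,
  x.m0 + y.m0, x.m2 + y.m2⟩⟩
instance : Neg (D k A) := ⟨fun x => ⟨-x.a, -x.v, -x.c, -x.w, -x.m1, -x.m0, -x.m2⟩⟩
instance : Sub (D k A) := ⟨fun x y => ⟨x.a - y.a, x.v - y.v, x.c - y.c, x.w - y.w, x.m1 - y.m1,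
  x.m0 - y.m0, x.m2 - y.m2⟩⟩
instance instSMulNat : SMul ℕ (D k A) := ⟨fun n x => ⟨n • x.a, n • x.v, n • x.c, n • x.w,
  n • x.m1, n • x.m0, n • x.m2⟩⟩
instance instSMulInt : SMul ℤ (D k A) := ⟨fun n x => ⟨n • x.a, n • x.v, n • x.c, n • x.w,
  n • x.m1, n • x.m0, n • x.m2⟩⟩

instance : AddCommGroup (D k A) :=
  (toProd_injective k).addCommGroup (toProd k) rfl (fun _ _ => rfl) (fun _ => rfl)
    (fun _ _ => rfl) (fun _ _ => rfl) (fun _ _ => rfl)

instance : Mul (D k A) where
  mul x y := ⟨x.a * y.a, x.v.comp (T k y.a), 0, x.w.comp (T k y.a) + x.c • y.v, T k y.a x.m1,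
    y.v x.m1, y.c • x.m0 + y.w x.m1⟩

variable {k}

lemma mul_def (x y : D k A) : x * y = ⟨x.a * y.a, x.v.comp (T k y.a), 0,
    x.w.comp (T k y.a) + x.c • y.v, T k y.a x.m1, y.v x.m1, y.c • x.m0 + y.w x.m1⟩ := rfl

lemma add_def (x y : D k A) : x + y = ⟨x.a + y.a, x.v + y.v, x.c + y.c, x.w + y.w, x.m1 + y.m1,
  x.m0 + y.m0, x.m2 + y.m2⟩ := rfl

lemma sub_def (x y : D k A) : x - y = ⟨x.a - y.a, x.v - y.v, x.c - y.c, x.w - y.w, x.m1 - y.m1,
  x.m0 - y.m0, x.m2 - y.m2⟩ := rfl

lemma zero_def : (0 : D k A) = ⟨0, 0, 0, 0, 0, 0, 0⟩ := rfl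

instance : NonUnitalNonAssocRing (D k A) where
  left_distrib x y z := by
    simp only [mul_def, add_def, mul_add, T_add, LinearMap.comp_add, add_smul, smul_add,
      LinearMap.add_apply, add_zero, D.mk.injEq, true_and]
    refine ⟨?_, ?_⟩ <;> abel
  right_distrib x y z := by
    simp only [mul_def, add_def, add_mul, LinearMap.add_comp, smul_add, map_add, add_zero,
      D.mk.injEq, true_and, add_smul]
    refine ⟨?_, ?_⟩ <;> abel
  zero_mul x := by
    simp [mul_def, zero_def]
  mul_zero x := by
    simp [mul_def, zero_def, T_zero]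

instance instSMulK : SMul k (D k A) := ⟨fun r x => ⟨r • x.a, r • x.v, r • x.c, r • x.w, r • x.m1,
  r • x.m0, r • x.m2⟩⟩

lemma smul_def (r : k) (x : D k A) : r • x = ⟨r • x.a, r • x.v, r • x.c, r • x.w, r • x.m1,
  r • x.m0, r • x.m2⟩ := rfl

instance : Module k (D k A) where
  one_smul x := by simp [smul_def]
  mul_smul r t x := by simp [smul_def, mul_smul, mul_assoc]
  smul_zero r := by simp [smul_def, zero_def]
  smul_add r x y := by simp [smul_def, add_def, smul_add, mul_add]
  add_smul r t x := by simp [smul_def, add_def, add_smul, add_mul]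
  zero_smul x := by simp [smul_def, zero_def]

instance : IsScalarTower k (D k A) (D k A) where
  smul_assoc r x y := by
    simp only [smul_def, smul_eq_mul, mul_def, D.mk.injEq, smul_mul_assoc, LinearMap.smul_comp,
      mul_zero, smul_add, map_smul, smul_smul, true_and, smul_comm r y.c]

instance : SMulCommClass k (D k A) (D k A) where
  smul_comm r x y := by
    simp only [smul_eq_mul]
    refine D.ext ?_ ?_ ?_ ?_ ?_ ?_ ?_
    · exact (mul_smul_comm r x.a y.a).symm
    · change r • (x.v.comp (T k y.a)) = x.v.comp (T k (r • y.a))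
      rw [T_smul, LinearMap.comp_smul]
    · change r • (0 : k) = 0
      exact smul_zero r
    · change r • (x.w.comp (T k y.a) + x.c • y.v) = x.w.comp (T k (r • y.a)) + x.c • (r • y.v)
      rw [T_smul, LinearMap.comp_smul, smul_add, smul_comm r x.c]
    · change r • (T k y.a x.m1) = T k (r • y.a) x.m1
      rw [T_smul, LinearMap.smul_apply]
    · rfl
    · change r • (y.c • x.m0 + y.w x.m1) = (r • y.c) • x.m0 + (r • y.w) x.m1
      rw [smul_add, LinearMap.smul_apply, smul_assoc]

end D

open D

variable {k}

theorem D_inVar {s : Prop} (h : InVar s A) : InVar s (D k A) := by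
  refine ⟨?_, fun hs => ?_⟩
  · intro x y
    simp only [D.mul_def, D.mk.injEq, true_and]
    refine ⟨h.1 _ _, ?_, ?_, ?_, ?_⟩
    · refine LinearMap.ext fun m => ?_
      simp only [LinearMap.comp_apply, T_T k h.1]
    · refine LinearMap.ext fun m => ?_
      simp only [LinearMap.comp_apply, T_T k h.1, LinearMap.add_apply, zero_smul, add_zero,
        LinearMap.smul_apply]
    · exact T_T k h.1 _ _
    · simp only [LinearMap.comp_apply, LinearMap.add_apply, zero_smul, zero_add,
        LinearMap.smul_apply]
      exact ⟨trivial, add_comm _ _⟩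
  · intro x y z
    have hm := h.2 hs
    simp only [D.mul_def, D.mk.injEq, true_and]
    refine ⟨hm _ _ _, ?_, ?_, ?_, ?_⟩
    · refine LinearMap.ext fun m => ?_
      simp only [LinearMap.comp_apply, T_T_T k hm]
    · refine LinearMap.ext fun m => ?_
      simp only [LinearMap.comp_apply, T_T_T k hm, LinearMap.add_apply, zero_smul, add_zero,
        LinearMap.smul_apply]
    · exact T_T_T k hm _ _ _
    · simp only [LinearMap.comp_apply, LinearMap.add_apply, zero_smul, zero_add,
        LinearMap.smul_apply]
      exact ⟨trivial, by rw [LinearMap.zero_apply, add_zero, add_comm]⟩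

variable (k) in
/-- The embedding of `A`. -/
def δ : A →ₙₐ[k] D k A where
  toFun a := ⟨a, 0, 0, 0, (0, a), 0, 0⟩
  map_smul' r a := by
    simp [D.smul_def]
  map_zero' := rfl
  map_add' a b := by
    simp [D.add_def]
  map_mul' a b := by
    simp [D.mul_def, T_apply]

lemma δ_apply (a : A) : δ k a = ⟨a, 0, 0, 0, (0, a), 0, 0⟩ := rfl

variable (k A) in
/-- an auxiliary element of the big algebra -/
def eb : D k A := ⟨0, LinearMap.id, 0, 0, 0, 0, 0⟩

variable (k A) in
/-- an auxiliary element of the big algebra -/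
def ec : D k A := ⟨0, 0, 1, 0, 0, 0, 0⟩

variable (k A) in
/-- an auxiliary element of the big algebra -/
def e1 : D k A := ⟨0, 0, 0, 0, (1, 0), 0, 0⟩

lemma left_assoc (n : A) : (δ k n * eb k A) * ec k A - δ k n * (eb k A * ec k A) =
    ⟨0, 0, 0, 0, 0, 0, (0, n)⟩ := by
  simp [D.mul_def, D.sub_def, δ_apply, eb, ec, T_zero, T_apply]

lemma right_assoc (n : A) : (e1 k A * eb k A) * δ k n - e1 k A * (eb k A * δ k n) =
    ⟨0, 0, 0, 0, 0, -(0, n), 0⟩ := by
  simp [D.mul_def, D.sub_def, δ_apply, eb, e1, T_zero, T_apply]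

lemma mid_assoc (n : A) : (δ k n * e1 k A) * eb k A - δ k n * (e1 k A * eb k A) = 0 := by
  simp [D.mul_def, D.sub_def, δ_apply, eb, e1, T_zero, D.zero_def]

theorem eq_zero_of_left {n : A}
    (h : (δ k n * eb k A) * ec k A - δ k n * (eb k A * ec k A) = 0) : n = 0 := by
  rw [left_assoc] at h
  exact congrArg (fun x : D k A => x.m2.2) h

theorem eq_zero_of_right {n : A}
    (h : (e1 k A * eb k A) * δ k n - e1 k A * (eb k A * δ k n) = 0) : n = 0 := by
  rw [right_assoc] at h
  exact neg_eq_zero.mp (congrArg (fun x : D k A => x.m0.2) h)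

theorem eq_zero_of_alt {n : A}
    (h : (δ k n * e1 k A) * eb k A - δ k n * (e1 k A * eb k A) =
      (e1 k A * eb k A) * δ k n - e1 k A * (eb k A * δ k n)) : n = 0 := by
  rw [mid_assoc] at h
  exact eq_zero_of_right h.symm

theorem eq_zero_of_comm {n : A} (h : δ k n * eb k A = eb k A * δ k n) : n = 0 := by
  have h1 : (δ k n * eb k A).m0.2 = n := by
    simp [D.mul_def, δ_apply, eb]
  have h2 : (eb k A * δ k n).m0.2 = 0 := by
    simp [D.mul_def, δ_apply, eb]
  rw [← h1, h, h2]

end Pool.Agent.Y136.RA
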