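import Pool.Agent.Y136.RA.Extension

/-!
# Embedding a right alternative algebra in one with zero nuclei

`B k s A` is the algebra obtained from `A` by adjoining freely countably many elements in the
variety `InVar s` (right alternative algebras, and if `s` is true with the right Moufang identity).
-/

set_option autoImplicit false
set_option linter.unusedSectionVars false

namespace Pool.Agent.Y136.RA

open Pool.Agent.H772R3.RightAlt FreeNonUnitalNonAssocAlgebra

universe u v

variable (k : Type v) [CommRing k] (s : Prop) (A : Type (max u v)) [NonUnitalNonAssocRing A]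
  [Module k A] [IsScalarTower k A A] [SMulCommClass k A A]

/-- The free algebra on the elements of `A` and countably many further variables. -/
abbrev P : Type (max u v) := FreeNonUnitalNonAssocAlgebra k (A ⊕ ℕ)

variable {A} in
/-- Evaluation at a homomorphism on `A` and a sequence. -/
noncomputable def ev {C : Type (max u v)} [NonUnitalNonAssocRing C] [Module k C]
    [IsScalarTower k C C] [SMulCommClass k C C] (φ : A →ₙₐ[k] C) (c : ℕ → C) :
    P.{u, v} k A →ₙₐ[k] C :=
  lift k (Sum.elim φ c)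

/-- Two expressions are identified if they have the same value in all algebras of the variety. -/
def con : RingCon (P.{u, v} k A) where
  r p q := ∀ (C : Type (max u v)) [NonUnitalNonAssocRing C] [Module k C] [IsScalarTower k C C]
    [SMulCommClass k C C], InVar s C → ∀ (φ : A →ₙₐ[k] C) (c : ℕ → C), ev k φ c p = ev k φ c q
  iseqv :=
    { refl := fun _ _ _ _ _ _ _ _ _ => rfl
      symm := fun h C _ _ _ _ hC φ c => (h C hC φ c).symm
      trans := fun h h' C _ _ _ _ hC φ c => (h C hC φ c).trans (h' C hC φ c) }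
  add' := fun h h' C _ _ _ _ hC φ c => by
    rw [map_add, map_add, h C hC φ c, h' C hC φ c]
  mul' := fun h h' C _ _ _ _ hC φ c => by
    rw [map_mul, map_mul, h C hC φ c, h' C hC φ c]

/-- The algebra obtained from `A` by adjoining freely countably many elements. -/
def B : Type (max u v) := (con.{u, v} k s A).Quotient

noncomputable instance : NonUnitalNonAssocRing (B.{u, v} k s A) :=
  inferInstanceAs (NonUnitalNonAssocRing (con.{u, v} k s A).Quotient)

/-- The class of an expression. -/
noncomputable def mk (p : P.{u, v} k A) : B.{u, v} k s A := ((p : (con.{u, v} k s A).Quotient))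

lemma mk_surjective : Function.Surjective (mk.{u, v} k s A) := Quotient.mk_surjective

lemma mk_add (p q : P.{u, v} k A) : mk k s A (p + q) = mk k s A p + mk k s A q := rfl
lemma mk_mul (p q : P.{u, v} k A) : mk k s A (p * q) = mk k s A p * mk k s A q := rfl
lemma mk_zero : mk.{u, v} k s A 0 = 0 := rfl
lemma mk_sub (p q : P.{u, v} k A) : mk k s A (p - q) = mk k s A p - mk k s A q := rfl

variable {k s A}

lemma mk_eq_mk {p q : P.{u, v} k A} : mk k s A p = mk k s A q ↔
    ∀ (C : Type (max u v)) [NonUnitalNonAssocRing C] [Module k C] [IsScalarTower k C C]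
    [SMulCommClass k C C], InVar s C → ∀ (φ : A →ₙₐ[k] C) (c : ℕ → C),
      ev k φ c p = ev k φ c q :=
  RingCon.eq _

variable (k s A)

noncomputable instance instSMulB : SMul k (B.{u, v} k s A) where
  smul r := Quotient.map' (fun p => r • p) fun p q h C _ _ _ _ hC φ c => by
    rw [map_smul, map_smul, h C hC φ c]

lemma mk_smul (r : k) (p : P.{u, v} k A) : mk k s A (r • p) = r • mk k s A p := rfl

noncomputable instance : Module k (B.{u, v} k s A) :=
  Function.Surjective.module k
    (⟨⟨mk k s A, mk_zero k s A⟩, mk_add k s A⟩ : P.{u, v} k A →+ B.{u, v} k s A)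
    (mk_surjective k s A) (fun _ _ => rfl)

instance : IsScalarTower k (B.{u, v} k s A) (B.{u, v} k s A) where
  smul_assoc r x y := by
    obtain ⟨p, rfl⟩ := mk_surjective k s A x
    obtain ⟨q, rfl⟩ := mk_surjective k s A y
    simp only [smul_eq_mul]
    rw [← mk_smul, ← mk_mul, ← mk_mul, ← mk_smul, smul_mul_assoc]

instance : SMulCommClass k (B.{u, v} k s A) (B.{u, v} k s A) where
  smul_comm r x y := by
    obtain ⟨p, rfl⟩ := mk_surjective k s A x
    obtain ⟨q, rfl⟩ := mk_surjective k s A y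
    simp only [smul_eq_mul]
    rw [← mk_smul, ← mk_mul, ← mk_mul, ← mk_smul, mul_smul_comm]

theorem B_inVar : InVar s (B.{u, v} k s A) := by
  refine ⟨fun x y => ?_, fun hs x y z => ?_⟩
  · obtain ⟨p, rfl⟩ := mk_surjective k s A x
    obtain ⟨q, rfl⟩ := mk_surjective k s A y
    rw [← mk_mul, ← mk_mul, ← mk_mul, ← mk_mul, mk_eq_mk]
    intro C _ _ _ _ hC φ c
    simp only [map_mul]
    exact hC.1 _ _
  · obtain ⟨p, rfl⟩ := mk_surjective k s A x
    obtain ⟨q, rfl⟩ := mk_surjective k s A y
    obtain ⟨t, rfl⟩ := mk_surjective k s A z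
    simp only [← mk_mul]
    rw [mk_eq_mk]
    intro C _ _ _ _ hC φ c
    simp only [map_mul]
    exact hC.2 hs _ _ _

variable {A}

lemma ev_inl {C : Type (max u v)} [NonUnitalNonAssocRing C] [Module k C]
    [IsScalarTower k C C] [SMulCommClass k C C] (φ : A →ₙₐ[k] C) (c : ℕ → C) (a : A) :
    ev k φ c (of k (Sum.inl a)) = φ a := by
  simp [ev]

lemma ev_inr {C : Type (max u v)} [NonUnitalNonAssocRing C] [Module k C]
    [IsScalarTower k C C] [SMulCommClass k C C] (φ : A →ₙₐ[k] C) (c : ℕ → C) (n : ℕ) :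
    ev k φ c (of k (Sum.inr n)) = c n := by
  simp [ev]

variable (A)

/-- The embedding of `A` in `B k s A`. -/
noncomputable def emb : A →ₙₐ[k] B.{u, v} k s A where
  toFun a := mk k s A (of k (Sum.inl a))
  map_smul' r a := by
    change mk k s A _ = r • mk k s A _
    rw [← mk_smul, mk_eq_mk]
    intro C _ _ _ _ hC φ c
    rw [map_smul, ev_inl, ev_inl, map_smul]
  map_zero' := by
    rw [← mk_zero, mk_eq_mk]
    intro C _ _ _ _ hC φ c
    rw [ev_inl, map_zero, map_zero]
  map_add' a b := by
    rw [← mk_add, mk_eq_mk]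
    intro C _ _ _ _ hC φ c
    rw [map_add, ev_inl, ev_inl, ev_inl, map_add]
  map_mul' a b := by
    rw [← mk_mul, mk_eq_mk]
    intro C _ _ _ _ hC φ c
    rw [map_mul, ev_inl, ev_inl, ev_inl, map_mul]

theorem emb_injective (hA : InVar s A) : Function.Injective (emb.{u, v} k s A) := by
  intro a b h
  have h1 := (mk_eq_mk.mp h) A hA (NonUnitalAlgHom.id k A) 0
  rwa [ev_inl, ev_inl] at h1

/-- An expression contains only finitely many variables. -/
theorem exists_bound (p : P.{u, v} k A) : ∃ N : ℕ, ∀ (C : Type (max u v))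
    [NonUnitalNonAssocRing C] [Module k C] [IsScalarTower k C C] [SMulCommClass k C C]
    (φ : A →ₙₐ[k] C) (c c' : ℕ → C), (∀ m < N, c m = c' m) → ev k φ c p = ev k φ c' p := by
  let S : NonUnitalSubalgebra k (P.{u, v} k A) :=
    { carrier := {p | ∃ N : ℕ, ∀ (C : Type (max u v))
        [NonUnitalNonAssocRing C] [Module k C] [IsScalarTower k C C] [SMulCommClass k C C]
        (φ : A →ₙₐ[k] C) (c c' : ℕ → C), (∀ m < N, c m = c' m) → ev k φ c p = ev k φ c' p}
      add_mem' := by
        rintro p q ⟨N, hN⟩ ⟨N', hN'⟩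
        refine ⟨max N N', fun C _ _ _ _ φ c c' h => ?_⟩
        rw [map_add, map_add, hN C φ c c' fun m hm => h m (lt_max_of_lt_left hm),
          hN' C φ c c' fun m hm => h m (lt_max_of_lt_right hm)]
      zero_mem' := ⟨0, fun C _ _ _ _ φ c c' h => by rw [map_zero, map_zero]⟩
      mul_mem' := by
        rintro p q ⟨N, hN⟩ ⟨N', hN'⟩
        refine ⟨max N N', fun C _ _ _ _ φ c c' h => ?_⟩
        rw [map_mul, map_mul, hN C φ c c' fun m hm => h m (lt_max_of_lt_left hm),
          hN' C φ c c' fun m hm => h m (lt_max_of_lt_right hm)]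
      smul_mem' := by
        rintro r p ⟨N, hN⟩
        refine ⟨N, fun C _ _ _ _ φ c c' h => ?_⟩
        rw [map_smul, map_smul, hN C φ c c' h] }
  have hof : ∀ x : A ⊕ ℕ, of k x ∈ S := by
    rintro (a | n)
    · exact ⟨0, fun C _ _ _ _ φ c c' h => by rw [ev_inl, ev_inl]⟩
    · exact ⟨n + 1, fun C _ _ _ _ φ c c' h => by
        rw [ev_inr, ev_inr, h n (Nat.lt_succ_self n)]⟩
  let g : P.{u, v} k A →ₙₐ[k] S := lift k fun x => ⟨of k x, hof x⟩
  have hg : (NonUnitalSubalgebraClass.subtype S).comp g = NonUnitalAlgHom.id k _ := by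
    apply hom_ext
    intro x
    simp [g]
  have hp : p ∈ S := by
    have h1 : ((g p : S) : P.{u, v} k A) = p := by
      have := congrArg (fun F : P.{u, v} k A →ₙₐ[k] P.{u, v} k A => F p) hg
      simpa using this
    rw [← h1]
    exact (g p).2
  exact hp

/-- Evaluation commutes with homomorphisms. -/
theorem ev_comp {C D : Type (max u v)} [NonUnitalNonAssocRing C] [Module k C]
    [IsScalarTower k C C] [SMulCommClass k C C] [NonUnitalNonAssocRing D] [Module k D]
    [IsScalarTower k D D] [SMulCommClass k D D] (ψ : C →ₙₐ[k] D) (φ : A →ₙₐ[k] C) (c : ℕ → C)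
    (p : P.{u, v} k A) : ev k (ψ.comp φ) (fun n => ψ (c n)) p = ψ (ev k φ c p) := by
  have h : ev k (ψ.comp φ) (fun n => ψ (c n)) = ψ.comp (ev k φ c) := by
    apply hom_ext
    intro x
    rcases x with a | n
    · simp [ev]
    · simp [ev]
  rw [h]
  rfl

variable {k s A}

/-- The elements of `B` are separated from zero by the extension `D k C`, with two new elements in
prescribed positions. -/
theorem separate (p : P.{u, v} k A) : ∃ N : ℕ, ∀ (C : Type (max u v)) [NonUnitalNonAssocRing C]
    [Module k C] [IsScalarTower k C C] [SMulCommClass k C C] (φ : A →ₙₐ[k] C) (c : ℕ → C)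
    (y z : D k C), ∃ c' : ℕ → D k C, c' N = y ∧ c' (N + 1) = z ∧
      ev k ((δ k).comp φ) c' p = δ k (ev k φ c p) := by
  obtain ⟨N, hN⟩ := exists_bound k A p
  refine ⟨N, fun C _ _ _ _ φ c y z =>
    ⟨fun n => if n = N then y else if n = N + 1 then z else δ k (c n), by simp, by simp, ?_⟩⟩
  rw [← ev_comp]
  apply hN
  intro m hm
  rw [if_neg (by omega), if_neg (by omega)]

theorem B_leftNucleus : leftNucleus (B.{u, v} k s A) = {0} := by
  apply Set.eq_singleton_iff_unique_mem.mpr
  refine ⟨fun x y => by simp, fun b hb => ?_⟩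
  obtain ⟨p, rfl⟩ := mk_surjective k s A b
  obtain ⟨N, hN⟩ := separate p
  have h1 := hb (mk k s A (of k (Sum.inr N))) (mk k s A (of k (Sum.inr (N + 1))))
  simp only [← mk_mul, ← mk_sub] at h1
  rw [← mk_zero, mk_eq_mk] at h1 ⊢
  intro C _ _ _ _ hC φ c
  obtain ⟨c', h2, h3, h4⟩ := hN C φ c (eb k C) (ec k C)
  have h5 := h1 (D k C) (D_inVar hC) ((δ k).comp φ) c'
  simp only [map_sub, map_mul, ev_inr, h2, h3, h4, map_zero] at h5
  rw [map_zero]
  exact eq_zero_of_left h5

theorem B_rightNucleus : rightNucleus (B.{u, v} k s A) = {0} := by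
  apply Set.eq_singleton_iff_unique_mem.mpr
  refine ⟨fun x y => by simp, fun b hb => ?_⟩
  obtain ⟨p, rfl⟩ := mk_surjective k s A b
  obtain ⟨N, hN⟩ := separate p
  have h1 := hb (mk k s A (of k (Sum.inr N))) (mk k s A (of k (Sum.inr (N + 1))))
  simp only [← mk_mul, ← mk_sub] at h1
  rw [← mk_zero, mk_eq_mk] at h1 ⊢
  intro C _ _ _ _ hC φ c
  obtain ⟨c', h2, h3, h4⟩ := hN C φ c (e1 k C) (eb k C)
  have h5 := h1 (D k C) (D_inVar hC) ((δ k).comp φ) c'
  simp only [map_sub, map_mul, ev_inr, h2, h3, h4, map_zero] at h5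
  rw [map_zero]
  exact eq_zero_of_right h5

theorem B_altCenter : altCenter (B.{u, v} k s A) = {0} := by
  apply Set.eq_singleton_iff_unique_mem.mpr
  refine ⟨fun x y => by simp, fun b hb => ?_⟩
  obtain ⟨p, rfl⟩ := mk_surjective k s A b
  obtain ⟨N, hN⟩ := separate p
  have h0 := hb (mk k s A (of k (Sum.inr N))) (mk k s A (of k (Sum.inr (N + 1))))
  have h1 := h0.1.trans h0.2
  simp only [← mk_mul, ← mk_sub] at h1
  rw [mk_eq_mk] at h1
  rw [← mk_zero, mk_eq_mk]
  intro C _ _ _ _ hC φ c
  obtain ⟨c', h2, h3, h4⟩ := hN C φ c (e1 k C) (eb k C)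
  have h5 := h1 (D k C) (D_inVar hC) ((δ k).comp φ) c'
  simp only [map_sub, map_mul, ev_inr, h2, h3, h4] at h5
  rw [map_zero]
  exact eq_zero_of_alt h5

theorem B_commCenter : commCenter (B.{u, v} k s A) = {0} := by
  apply Set.eq_singleton_iff_unique_mem.mpr
  refine ⟨fun x => by simp, fun b hb => ?_⟩
  obtain ⟨p, rfl⟩ := mk_surjective k s A b
  obtain ⟨N, hN⟩ := separate p
  have h1 := hb (mk k s A (of k (Sum.inr N)))
  simp only [← mk_mul] at h1
  rw [mk_eq_mk] at h1
  rw [← mk_zero, mk_eq_mk]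
  intro C _ _ _ _ hC φ c
  obtain ⟨c', h2, h3, h4⟩ := hN C φ c (eb k C) (ec k C)
  have h5 := h1 (D k C) (D_inVar hC) ((δ k).comp φ) c'
  simp only [map_mul, ev_inr, h2, h4] at h5
  rw [map_zero]
  exact eq_zero_of_comm h5

end Pool.Agent.Y136.RA
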